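import Pool.Agent.Helper54.LA.Lim

/-!
# Products of Artin groups
-/

set_option autoImplicit false

namespace Pool.Agent.Helper63.EV

open Pool.Agent.Helper29.BA Pool.Agent.Helper13.LT Pool.Agent.Helper54.LA

section split

variable {S : Type} (M : CoxeterMatrix S)

theorem alt_one_one {G : Type} [Group G] (n : ℕ) : alt (1 : G) 1 n = 1 := by
  induction n with
  | zero => rfl
  | succ n ih => rw [alt, ih, one_mul]

theorem alt_two {G : Type} [Group G] (x y : G) : alt x y 2 = x * y := by
  simp [alt]

theorem alt_prod {G H : Type} [Group G] [Group H] (x y : G) (z w : H) (n : ℕ) :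
    alt (x, z) (y, w) n = (alt x y n, alt z w n) := by
  induction n generalizing x y z w with
  | zero => rfl
  | succ n ih => rw [alt, ih, alt, alt]; rfl

open Classical in
/-- The projection to the product, on the generators. -/
noncomputable def spl (T : Set S) (s : S) :
    ArtinGroup (res M T) × ArtinGroup (res M Tᶜ) :=
  if h : s ∈ T then (PresentedGroup.of ⟨s, h⟩, 1) else (1, PresentedGroup.of ⟨s, h⟩)

/-- The homomorphism to the product. -/
noncomputable def split (T : Set S) (hT : ∀ s ∈ T, ∀ u, u ∉ T → M s u = 2) :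
    ArtinGroup M →* ArtinGroup (res M T) × ArtinGroup (res M Tᶜ) :=
  artinLift M (spl M T) (by
    intro s t h0
    by_cases hs : s ∈ T
    · by_cases ht : t ∈ T
      · rw [spl, spl, dif_pos hs, dif_pos ht, alt_prod, alt_prod]
        exact congrArg (fun x => (x, alt (1 : ArtinGroup (res M Tᶜ)) 1 (M s t)))
          (artin_braid (res M T) ⟨s, hs⟩ ⟨t, ht⟩ h0)
      · rw [hT s hs t ht, alt_two, alt_two, spl, spl, dif_pos hs, dif_neg ht, Prod.mk_mul_mk,
          Prod.mk_mul_mk, one_mul, mul_one, one_mul, mul_one]
    · by_cases ht : t ∈ T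
      · rw [M.symmetric, hT t ht s hs, alt_two, alt_two, spl, spl, dif_neg hs, dif_pos ht,
          Prod.mk_mul_mk, Prod.mk_mul_mk, one_mul, mul_one, one_mul, mul_one]
      · rw [spl, spl, dif_neg hs, dif_neg ht, alt_prod, alt_prod]
        exact congrArg (fun x => (alt (1 : ArtinGroup (res M T)) 1 (M s t), x))
          (artin_braid (res M Tᶜ) ⟨s, hs⟩ ⟨t, ht⟩ h0))

theorem commute_of (T : Set S) (hT : ∀ s ∈ T, ∀ u, u ∉ T → M s u = 2)
    (x : ArtinGroup (res M T)) (y : ArtinGroup (res M Tᶜ)) :
    Commute (toAll M T x) (toAll M Tᶜ y) := by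
  have h1 : ∀ (s : T) (u : (Tᶜ : Set S)),
      Commute (PresentedGroup.of (rels := artinRels M) s.1) (PresentedGroup.of u.1) := by
    intro s u
    have h := artin_braid M s.1 u.1 (by rw [hT s.1 s.2 u.1 u.2]; norm_num)
    rw [hT s.1 s.2 u.1 u.2, alt_two, alt_two] at h
    exact h
  have h2 : ∀ (s : T) (y : ArtinGroup (res M Tᶜ)),
      Commute (PresentedGroup.of (rels := artinRels M) s.1) (toAll M Tᶜ y) := by
    intro s y
    have hle : (⊤ : Subgroup (ArtinGroup (res M Tᶜ))) ≤
        (Subgroup.centralizer {PresentedGroup.of (rels := artinRels M) s.1}).comap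
          (toAll M Tᶜ) := by
      rw [← PresentedGroup.closure_range_of, Subgroup.closure_le]
      rintro _ ⟨u, rfl⟩
      rw [SetLike.mem_coe, Subgroup.mem_comap, Subgroup.mem_centralizer_iff]
      rintro _ rfl
      rw [toAll_of]
      exact h1 s u
    have h3 := hle (Subgroup.mem_top y)
    rw [Subgroup.mem_comap, Subgroup.mem_centralizer_iff] at h3
    exact h3 _ rfl
  have hle : (⊤ : Subgroup (ArtinGroup (res M T))) ≤
      (Subgroup.centralizer {toAll M Tᶜ y}).comap (toAll M T) := by
    rw [← PresentedGroup.closure_range_of, Subgroup.closure_le]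
    rintro _ ⟨u, rfl⟩
    rw [SetLike.mem_coe, Subgroup.mem_comap, Subgroup.mem_centralizer_iff]
    rintro _ rfl
    rw [toAll_of]
    exact (h2 u y).symm
  have h3 := hle (Subgroup.mem_top x)
  rw [Subgroup.mem_comap, Subgroup.mem_centralizer_iff] at h3
  exact (h3 _ rfl).symm

theorem split_injective (T : Set S) (hT : ∀ s ∈ T, ∀ u, u ∉ T → M s u = 2) :
    Function.Injective (split M T hT) := by
  let ψ : ArtinGroup (res M T) × ArtinGroup (res M Tᶜ) →* ArtinGroup M :=
    MonoidHom.noncommCoprod (toAll M T) (toAll M Tᶜ) (commute_of M T hT)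
  have h : ψ.comp (split M T hT) = MonoidHom.id _ := by
    refine PresentedGroup.ext fun s => ?_
    rw [MonoidHom.comp_apply, split, artinLift_of]
    by_cases hs : s ∈ T
    · rw [spl, dif_pos hs]
      change toAll M T (PresentedGroup.of ⟨s, hs⟩) * toAll M Tᶜ 1 = _
      rw [map_one, mul_one, toAll_of]
      rfl
    · rw [spl, dif_neg hs]
      change toAll M T 1 * toAll M Tᶜ (PresentedGroup.of ⟨s, hs⟩) = _
      rw [map_one, one_mul, toAll_of]
      rfl
  intro x y hxy
  have h1 := congrArg ψ hxy
  have h2 : ∀ x, ψ (split M T hT x) = x := fun x => congrArg (fun f => f x) h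
  rwa [h2, h2] at h1

/-- Closed classes contain the groups which are mapped injectively to groups of the class. -/
theorem of_injective {C : ∀ (G : Type) [Group G], Prop} (hC : ClosedClass C) {G H : Type}
    [Group G] [Group H] (f : G →* H) (hf : Function.Injective f) (hH : C H) : C G :=
  hC.iso _ _ (MonoidHom.ofInjective hf).symm (hC.subgroup H f.range hH)

/-- An Artin group which is the product of two standard parabolic subgroups. -/
theorem of_split {C : ∀ (G : Type) [Group G], Prop} (hC : ClosedClass C) (T : Set S)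
    (hT : ∀ s ∈ T, ∀ u, u ∉ T → M s u = 2) (h1 : C (ArtinGroup (res M T)))
    (h2 : C (ArtinGroup (res M Tᶜ))) : C (ArtinGroup M) :=
  of_injective hC (split M T hT) (split_injective M T hT) (hC.prod _ _ h1 h2)

end split

/-- The triple `{i, j, k}` is not spherical. -/
def NonSph {S : Type} (M : CoxeterMatrix S) (i j k : S) : Prop :=
  (1 : ℚ) / M i j + 1 / M j k + 1 / M i k ≤ 1

/-- Even Artin groups all of whose triples are spherical are products of dihedral and cyclic
Artin groups. -/
theorem of_spherical {C : ∀ (G : Type) [Group G], Prop} (hC : ClosedClass C)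
    (h2 : ∀ (T : Type) [Finite T] (N : CoxeterMatrix T), Nat.card T ≤ 2 → C (ArtinGroup N))
    {S : Type} [Finite S] (M : CoxeterMatrix S) (hev : ∀ s t, s ≠ t → Even (M s t))
    (hsph : ∀ i j k, i ≠ j → j ≠ k → i ≠ k → ¬ NonSph M i j k) : C (ArtinGroup M) := by
  classical
  induction hn : Nat.card S using Nat.strong_induction_on generalizing S with
  | _ n ih =>
    subst hn
    by_cases hc : Nat.card S ≤ 2
    · exact h2 S M hc
    have hne : Nonempty S := (Nat.card_pos_iff.1 (by omega)).1
    -- the reciprocals of even labels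
    have hle : ∀ s t, s ≠ t → M s t ≠ 2 → (1 : ℚ) / M s t ≤ 1 / 4 := by
      intro s t hst h
      by_cases h0 : M s t = 0
      · rw [h0]; norm_num
      · have h4 : 4 ≤ M s t := by
          obtain ⟨k, hk⟩ := hev s t hst
          omega
        have h4' : (4 : ℚ) ≤ M s t := by exact_mod_cast h4
        exact one_div_le_one_div_of_le (by norm_num) h4'
    have hle2 : ∀ s t, s ≠ t → (1 : ℚ) / M s t ≤ 1 / 2 := by
      intro s t hst
      by_cases h : M s t = 2
      · rw [h]; norm_num
      · exact (hle s t hst h).trans (by norm_num)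
    have step : ∀ T : Set S, T.Nonempty → T.ncard ≤ 2 →
        (∀ s ∈ T, ∀ u, u ∉ T → M s u = 2) → C (ArtinGroup M) := by
      intro T hTn hTc hT
      refine of_split M hC T hT (h2 _ _ hTc) (ih (Nat.card (Tᶜ : Set S)) ?_ (res M Tᶜ) ?_ ?_ rfl)
      · have h1 : T.ncard + (Tᶜ : Set S).ncard = Nat.card S := Set.ncard_add_ncard_compl T
        have h3 : 0 < T.ncard := (Set.ncard_pos (Set.toFinite T)).2 hTn
        have h4 : Nat.card (Tᶜ : Set S) = (Tᶜ : Set S).ncard := rfl
        omega
      · exact fun s t h => hev s.1 t.1 fun e => h (Subtype.ext e)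
      · exact fun i j k h1 h3 h4 => hsph i.1 j.1 k.1 (fun e => h1 (Subtype.ext e))
          (fun e => h3 (Subtype.ext e)) (fun e => h4 (Subtype.ext e))
    obtain ⟨s⟩ := hne
    by_cases hs : ∃ t, s ≠ t ∧ M s t ≠ 2
    · obtain ⟨t, hst, h⟩ := hs
      refine step {s, t} ⟨s, by simp⟩ (Set.ncard_pair hst).le ?_
      have key : ∀ u, u ≠ s → u ≠ t → M s u = 2 ∧ M t u = 2 := by
        intro u hus hut
        have h1 : ¬ NonSph M s t u := hsph s t u hst hut.symm hus.symm
        rw [NonSph, not_le] at h1
        have h3 := hle s t hst h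
        constructor
        · by_contra h4
          have h5 := hle s u hus.symm h4
          have h6 := hle2 t u hut.symm
          linarith
        · by_contra h4
          have h5 := hle t u hut.symm h4
          have h6 := hle2 s u hus.symm
          linarith
      intro x hx u hu
      rw [Set.mem_insert_iff, Set.mem_singleton_iff, not_or] at hu
      rcases hx with rfl | rfl
      · exact (key u hu.1 hu.2).1
      · exact (key u hu.1 hu.2).2
    · push Not at hs
      refine step {s} ⟨s, by simp⟩ (by simp) ?_
      rintro x rfl u hu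
      exact hs u fun e => hu e.symm

end Pool.Agent.Helper63.EV
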