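import Pool.Agent.Helper54.EV.Par
import Pool.Agent.Helper63.EV.Prod

/-!
# Even generators all of whose triples are spherical
-/

set_option autoImplicit false

namespace Pool.Agent.Helper63.EV

open Pool.Agent.Helper54.LA Pool.Agent.Helper13.LT Pool.Agent.Helper26.LT Pool.Agent.Helper9.EV
  Pool.Agent.Helper54.EV

section

variable {S : Type} {M : CoxeterMatrix S}

variable (M) in
/-- The endomorphism which kills the generators in `K`. -/
noncomputable def kend (K : Set S) (hK : EvenOn M K) : ArtinGroup M →* ArtinGroup M :=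
  (toAll M Kᶜ).comp (kill M K hK)

theorem kend_gen {K : Set S} (hK : EvenOn M K) {s : S} (hs : s ∉ K) :
    kend M K hK (gen M s) = gen M s := by
  change toAll M Kᶜ (kill M K hK (gen M s)) = gen M s
  rw [kill_gen hK (show s ∈ Kᶜ from hs), toAll_gen]

theorem kend_gen' {K : Set S} (hK : EvenOn M K) {s : S} (hs : s ∈ K) :
    kend M K hK (gen M s) = 1 := by
  change toAll M Kᶜ (kill M K hK (gen M s)) = 1
  rw [kill_gen' hK hs, map_one]

theorem kend_eq_one {K : Set S} (hK : EvenOn M K) {x : ArtinGroup M} :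
    kend M K hK x = 1 ↔ kill M K hK x = 1 :=
  ⟨fun h => toAll_injective hK (h.trans (map_one _).symm), fun h => by
    change toAll M Kᶜ (kill M K hK x) = 1
    rw [h, map_one]⟩

theorem kend_kend {K L : Set S} (hK : EvenOn M K) (hL : EvenOn M L) (hKL : EvenOn M (K ∪ L))
    (x : ArtinGroup M) : kend M K hK (kend M L hL x) = kend M (K ∪ L) hKL x := by
  have : (kend M K hK).comp (kend M L hL) = kend M (K ∪ L) hKL := by
    refine PresentedGroup.ext fun s => ?_
    change kend M K hK (kend M L hL (gen M s)) = kend M (K ∪ L) hKL (gen M s)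
    by_cases h1 : s ∈ L
    · rw [kend_gen' hL h1, map_one, kend_gen' hKL (Or.inr h1)]
    · rw [kend_gen hL h1]
      by_cases h2 : s ∈ K
      · rw [kend_gen' hK h2, kend_gen' hKL (Or.inl h2)]
      · rw [kend_gen hK h2, kend_gen hKL (fun h => h.elim h2 h1)]
  exact congrArg (fun f : ArtinGroup M →* ArtinGroup M => f x) this

/-- Parabolic subgroups whose generators commute. -/
theorem par_commute {U V : Set S} (h : ∀ u ∈ U, ∀ v ∈ V, M u v = 2) {x y : ArtinGroup M}
    (hx : x ∈ Par M U) (hy : y ∈ Par M V) : Commute x y := by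
  have h1 : ∀ u ∈ U, ∀ v ∈ V, Commute (gen M u) (gen M v) := by
    intro u hu v hv
    have h := artin_braid M u v (by rw [h u hu v hv]; norm_num)
    rw [‹∀ u ∈ U, ∀ v ∈ V, M u v = 2› u hu v hv, alt_two, alt_two] at h
    exact h
  have h2 : ∀ u ∈ U, Commute (gen M u) y := by
    intro u hu
    have hle : Par M V ≤ Subgroup.centralizer {gen M u} := by
      refine (Subgroup.closure_le _).2 ?_
      rintro _ ⟨v, hv, rfl⟩
      rw [SetLike.mem_coe, Subgroup.mem_centralizer_iff]
      rintro _ rfl
      exact h1 u hu v hv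
    have h3 := hle hy
    rw [Subgroup.mem_centralizer_iff] at h3
    exact h3 _ rfl
  have hle : Par M U ≤ Subgroup.centralizer {y} := by
    refine (Subgroup.closure_le _).2 ?_
    rintro _ ⟨u, hu, rfl⟩
    rw [SetLike.mem_coe, Subgroup.mem_centralizer_iff]
    rintro _ rfl
    exact (h2 u hu).symm
  have h3 := hle hx
  rw [Subgroup.mem_centralizer_iff] at h3
  exact (h3 _ rfl).symm

/-- Products. -/
theorem eq_kend_mul {U V : Set S} (hU : EvenOn M U) (hV : EvenOn M V)
    (hd : ∀ u ∈ U, u ∉ V) (h : ∀ u ∈ U, ∀ v ∈ V, M u v = 2) {x : ArtinGroup M}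
    (hx : x ∈ Par M (U ∪ V)) : x = kend M V hV x * kend M U hU x := by
  have m1 : ∀ x ∈ Par M (U ∪ V), kend M V hV x ∈ Par M U := by
    intro x hx
    exact par_mono M (fun s hs => hs.1.resolve_right hs.2) (kill_mem hV hx)
  have m2 : ∀ x ∈ Par M (U ∪ V), kend M U hU x ∈ Par M V := by
    intro x hx
    exact par_mono M (fun s hs => hs.1.resolve_left hs.2) (kill_mem hU hx)
  induction hx using Subgroup.closure_induction with
  | mem y hy =>
    obtain ⟨s, hs | hs, rfl⟩ := hy
    · rw [kend_gen hV (hd s hs), kend_gen' hU hs, mul_one]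
    · rw [kend_gen' hV hs, kend_gen hU (fun h => hd s h hs), one_mul]
  | one => rw [map_one, map_one, mul_one]
  | mul x y hx hy ihx ihy =>
    have hc : Commute (kend M V hV y) (kend M U hU x) := par_commute h (m1 y hy) (m2 x hx)
    rw [map_mul, map_mul]
    conv_lhs => rw [ihx, ihy]
    rw [mul_assoc, mul_assoc, ← mul_assoc (kend M U hU x), ← hc.eq, mul_assoc]
  | inv x hx ihx =>
    have hc : Commute (kend M V hV x) (kend M U hU x) := par_commute h (m1 x hx) (m2 x hx)
    rw [map_inv, map_inv]
    conv_lhs => rw [ihx]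
    rw [hc.eq, mul_inv_rev]

/-- **Row EV6b.** The parabolic subgroup of a set of even generators all of whose triples are
spherical is detected by killing all of them but one or two. -/
theorem exists_blocks [Finite S] (E : Set S) (hE : EvenOn M E)
    (hsp : ∀ s ∈ E, ∀ t ∈ E, ∀ u ∈ E, s ≠ t → t ≠ u → s ≠ u → Sp3 M s t u) :
    ∃ fam : List (Set S), (∀ W ∈ fam, W ⊆ E ∧ (E \ W).ncard ≤ 2) ∧
      ∀ x ∈ Par M E, (∀ W ∈ fam, ∀ hW : EvenOn M W, kill M W hW x = 1) → x = 1 := by
  classical
  induction hn : E.ncard using Nat.strong_induction_on generalizing E with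
  | _ n ih =>
    subst hn
    by_cases hc : E.ncard ≤ 2
    · refine ⟨[∅], ?_, fun x hx h => ?_⟩
      · intro W hW
        rw [List.mem_singleton.1 hW, Set.sdiff_empty]
        exact ⟨Set.empty_subset _, hc⟩
      · have h0 : EvenOn M (∅ : Set S) := fun k hk => absurd hk (Set.notMem_empty k)
        exact eq_one_of_kill h0 (fun u _ => Set.notMem_empty u) hx (h ∅ (by simp) h0)
    have hne : E.Nonempty := Set.nonempty_of_ncard_ne_zero (by omega)
    -- the reciprocals of even labels
    have hle : ∀ s ∈ E, ∀ t, s ≠ t → M s t ≠ 2 → (1 : ℚ) / M s t ≤ 1 / 4 := by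
      intro s hs t hst h
      by_cases h0 : M s t = 0
      · rw [h0]; norm_num
      · have h4 : 4 ≤ M s t := by
          obtain ⟨k, hk⟩ := hE s hs t hst.symm
          omega
        have h4' : (4 : ℚ) ≤ M s t := by exact_mod_cast h4
        exact one_div_le_one_div_of_le (by norm_num) h4'
    have hle2 : ∀ s ∈ E, ∀ t, s ≠ t → (1 : ℚ) / M s t ≤ 1 / 2 := by
      intro s hs t hst
      by_cases h : M s t = 2
      · rw [h]; norm_num
      · exact (hle s hs t hst h).trans (by norm_num)
    have step : ∀ U : Set S, U ⊆ E → U.Nonempty → U.ncard ≤ 2 →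
        (∀ u ∈ U, ∀ v ∈ E \ U, M u v = 2) →
        ∃ fam : List (Set S), (∀ W ∈ fam, W ⊆ E ∧ (E \ W).ncard ≤ 2) ∧
          ∀ x ∈ Par M E, (∀ W ∈ fam, ∀ hW : EvenOn M W, kill M W hW x = 1) → x = 1 := by
      intro U hUE hU1 hU2 hcom
      have hcard : (E \ U).ncard < E.ncard := by
        refine Set.ncard_lt_ncard ?_ (Set.toFinite E)
        refine ⟨Set.sdiff_subset, fun h => ?_⟩
        obtain ⟨u, hu⟩ := hU1
        exact (h (hUE hu)).2 hu
      have hV : EvenOn M (E \ U) := fun k hk => hE k hk.1
      have hU : EvenOn M U := fun k hk => hE k (hUE hk)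
      obtain ⟨fam, h1, h2⟩ := ih _ hcard (E \ U) hV
        (fun s hs t ht u hu => hsp s hs.1 t ht.1 u hu.1) rfl
      have hun : U ∪ E \ U = E := Set.union_sdiff_cancel hUE
      refine ⟨(E \ U) :: fam.map (fun W => W ∪ U), ?_, fun x hx h => ?_⟩
      · intro W hW
        rcases List.mem_cons.1 hW with rfl | hW
        · refine ⟨Set.sdiff_subset, ?_⟩
          rw [Set.sdiff_sdiff_cancel_left hUE]
          exact hU2
        · obtain ⟨W', hW', rfl⟩ := List.mem_map.1 hW
          refine ⟨Set.union_subset ((h1 W' hW').1.trans Set.sdiff_subset) hUE, ?_⟩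
          have : E \ (W' ∪ U) = (E \ U) \ W' := by
            rw [Set.union_comm, Set.sdiff_sdiff]
          rw [this]
          exact (h1 W' hW').2
      · rw [← hun] at hx
        have e := eq_kend_mul hU hV (fun u hu hu' => hu'.2 hu) hcom hx
        have e1 : kend M (E \ U) hV x = 1 :=
          (kend_eq_one hV).2 (h (E \ U) (by simp) hV)
        have e2 : kend M U hU x = 1 := by
          refine h2 _ ?_ fun W hW hWE => ?_
          · exact par_mono M (fun s hs => hs.1.resolve_left hs.2) (kill_mem hU hx)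
          · have hWU : EvenOn M (W ∪ U) := fun k hk => hk.elim (hWE k) (hU k)
            rw [← kend_eq_one, kend_kend hWE hU hWU, kend_eq_one]
            exact h (W ∪ U) (List.mem_cons_of_mem _ (List.mem_map_of_mem hW)) hWU
        rw [e, e1, e2, mul_one]
    obtain ⟨s, hs⟩ := hne
    by_cases hex : ∃ t ∈ E, s ≠ t ∧ M s t ≠ 2
    · obtain ⟨t, ht, hst, h⟩ := hex
      refine step {s, t} ?_ ⟨s, by simp⟩ (Set.ncard_pair hst).le ?_
      · rintro x (rfl | rfl)
        · exact hs
        · exact ht
      have key : ∀ u ∈ E, u ≠ s → u ≠ t → M s u = 2 ∧ M t u = 2 := by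
        intro u hu hus hut
        obtain ⟨-, -, -, h1⟩ := hsp s hs t ht u hu hst hut.symm hus.symm
        have h3 := hle s hs t hst h
        constructor
        · by_contra h4
          have h5 := hle s hs u hus.symm h4
          have h6 := hle2 t ht u hut.symm
          linarith
        · by_contra h4
          have h5 := hle t ht u hut.symm h4
          have h6 := hle2 s hs u hus.symm
          linarith
      intro x hx u hu
      have hu2 := hu.2
      rw [Set.mem_insert_iff, Set.mem_singleton_iff, not_or] at hu2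
      rcases hx with rfl | rfl
      · exact (key u hu.1 hu2.1 hu2.2).1
      · exact (key u hu.1 hu2.1 hu2.2).2
    · push Not at hex
      refine step {s} (Set.singleton_subset_iff.2 hs) ⟨s, by simp⟩ (by simp) ?_
      rintro x rfl u hu
      exact hex u hu.1 fun e => hu.2 e.symm

end

end Pool.Agent.Helper63.EV
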