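import Pool.Agent.Helper63.TD.Main

/-!
# Lengths in infinite dihedral residues
-/

set_option autoImplicit false

namespace Pool.Agent.Helper63.EV

open Pool.Agent.Helper63.TD CoxeterSystem

variable {S : Type} {M : CoxeterMatrix S}

/-- In a residue of type `{s, t}` with `M s t = ∞` all alternating words are ascending from the
gate. -/
theorem asc_inf {s t : S} (hst : s ≠ t) (h0 : M s t = 0) (w : M.Group)
    (hs : ¬ Pool.Agent.Helper9.TD.Ds M w s) (ht : ¬ Pool.Agent.Helper9.TD.Ds M w t) (k : ℕ) :
    Pool.Agent.Helper9.TD.len M (w * Pool.Agent.Helper9.TD.ap M s t k) =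
      Pool.Agent.Helper9.TD.len M w + k := by
  induction k with
  | zero => simp [Pool.Agent.Helper9.TD.ap]
  | succ k ih =>
    have h1 := ih
    rw [ap_eq] at h1 ⊢
    rw [altE_succ, ← mul_assoc]
    have h2 := (root_altE M.toCoxeterSystem w s t k).1
    have hm := M.off_diagonal s t hst
    have h3 : 0 ≤ root M.toCoxeterSystem (w * altE M.toCoxeterSystem s t k) (lett s t k) := by
      rw [h2]
      exact add_nonneg
        (Pool.Agent.Helper63.TD.smul_nonneg' (chb_nonneg hm (Or.inl h0)) (root_nonneg M.toCoxeterSystem hs))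
        (Pool.Agent.Helper63.TD.smul_nonneg' (chb_nonneg hm (Or.inl h0)) (root_nonneg M.toCoxeterSystem ht))
    rw [root_nonneg_iff, M.toCoxeterSystem.not_isRightDescent_iff] at h3
    simp only [Pool.Agent.Helper9.TD.len] at h1 ⊢
    omega

/-- The same for all labels: `k` arbitrary if `M s t = 0`, `k ≤ M s t` otherwise. -/
theorem asc_all {s t : S} (hst : s ≠ t) (w : M.Group)
    (hs : ¬ Pool.Agent.Helper9.TD.Ds M w s) (ht : ¬ Pool.Agent.Helper9.TD.Ds M w t) (k : ℕ)
    (hk : M s t = 0 ∨ k ≤ M s t) :
    Pool.Agent.Helper9.TD.len M (w * Pool.Agent.Helper9.TD.ap M s t k) =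
      Pool.Agent.Helper9.TD.len M w + k := by
  rcases hk with h0 | hk
  · exact asc_inf hst h0 w hs ht k
  induction k with
  | zero => simp [Pool.Agent.Helper9.TD.ap]
  | succ k ih =>
    have h1 := ih (by omega)
    rw [ap_eq] at h1 ⊢
    rw [altE_succ, ← mul_assoc]
    have h2 := (root_altE M.toCoxeterSystem w s t k).1
    have h3 : 0 ≤ root M.toCoxeterSystem (w * altE M.toCoxeterSystem s t k) (lett s t k) := by
      rw [h2]
      exact add_nonneg_root (M.off_diagonal s t hst) hk
        (root_nonneg M.toCoxeterSystem hs) (root_nonneg M.toCoxeterSystem ht)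
    rw [root_nonneg_iff, M.toCoxeterSystem.not_isRightDescent_iff] at h3
    simp only [Pool.Agent.Helper9.TD.len] at h1 ⊢
    omega

end Pool.Agent.Helper63.EV
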