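import Pool.Agent.Helper63.EV.Rsc
import Pool.Agent.Helper63.EV.Asc
import Pool.Agent.Helper9.EV.Defs

/-!
# Rows EV4 and EV6a
-/

set_option autoImplicit false

namespace Pool.Agent.Helper63.EV

open Relation Pool.Agent.Helper3.FJ Pool.Agent.Helper9.TD Pool.Agent.Helper9.EV

/-- Lengths for infinite labels. -/
theorem ascInf {S : Type} (M : CoxeterMatrix S) : AscInf M :=
  fun w _ _ hst h0 hs ht k => asc_inf hst h0 w hs ht k

section

variable {S : Type} {G : Type} [Group G] {M : CoxeterMatrix S} {B : Subgroup G}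
  {P : S → Subgroup G}

theorem PJ_mono (B : Subgroup G) (P : S → Subgroup G) : Monotone (PJ B P) := fun _ _ h =>
  sup_le_sup_left (biSup_mono fun _ hs => h hs) B

theorem PJ_empty (B : Subgroup G) (P : S → Subgroup G) : PJ B P ∅ = B := by
  simp [PJ]

theorem PJ_singleton (h : ∀ s, B ≤ P s) (s : S) : PJ B P {s} = P s := by
  have : ⨆ t ∈ ({s} : Finset S), P t = P s := by simp
  rw [PJ, this]
  exact sup_eq_right.2 (h s)

theorem alt_of_altP {Q R : Subgroup G} {n : ℕ} {g : G} (h : AltP B Q R n g) :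
    ∃ g' b, b ∈ B ∧ g = g' * b ∧ Alt B Q R n g' := by
  induction h with
  | nil Q R b hb => exact ⟨1, b, hb, (one_mul b).symm, Alt.nil Q R⟩
  | @cons Q R n x y h1 h2 h3 ih =>
    obtain ⟨g', b, hb, e, h⟩ := ih
    exact ⟨x * g', b, hb, by rw [e, mul_assoc], Alt.cons h1 h2 h⟩

theorem girP_of_rg {Q R : Subgroup G} {m : ℕ} (h : RG B Q R m) : GirP B Q R m := by
  intro n g hn hlt hg hgB
  obtain ⟨g', b, hb, e, h1⟩ := alt_of_altP hg
  have h2 : g' ∈ B := by
    have : g * b⁻¹ ∈ B := mul_mem hgB (inv_mem hb)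
    rwa [e, mul_inv_cancel_right] at this
  have := h n g' hn (Or.inl h1) h2
  omega

/-- **Row EV4.** The relative coset complex. -/
theorem rel_cx (h : RS M B P) : ∃ (V : Type) (_ : MulAction G V) (X : Cpx V)
    (τ : V → Finset S) (c0 : V), TK M X τ ∧ ActsI G X τ ∧ X.SimplyConn ∧ τ c0 = ∅ ∧
      (∀ c, τ c = ∅ → ∃ g : G, c = g • c0) ∧ (∀ g : G, g • c0 = c0 ↔ g ∈ B) ∧
      (∀ s (g g' : G) (hg : τ (g • c0) = ∅) (hg' : τ (g' • c0) = ∅),
        Pn X τ s ⟨g • c0, hg⟩ ⟨g' • c0, hg'⟩ ↔ g⁻¹ * g' ∈ P s) ∧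
      (∀ v, ∃ g : G, ∀ x : G, x • v = v ↔ g⁻¹ * x * g ∈ PJ B P (τ v)) ∧ ∀ v, SJ M (τ v) := by
  have hm := PJ_mono B P
  have e0 : ∀ g : G, g • (mk (ch M) 1 : RV M (PJ B P)) = mk (ch M) g := fun g => by
    rw [smul_mk, mul_one]
  refine ⟨RV M (PJ B P), inferInstance, rcx M (PJ B P), rtau M (PJ B P), mk (ch M) 1, ?_,
    ⟨acts, rtau_smul⟩, ?_, rfl, ?_, ?_, ?_, ?_, ?_⟩
  · refine rtk hm fun s t hst h0 => ?_
    rw [PJ_empty, PJ_singleton h.le, PJ_singleton h.le]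
    exact girP_of_rg (h.rg s t hst h0)
  · refine rcx_simplyConn hm (fun K h1 h2 => ?_) fun H _ φ hφ => ?_
    · rw [eq_top_iff, ← h.gen, sup_le_iff, iSup_le_iff]
      rw [PJ_empty] at h1
      exact ⟨h1, fun s => by
        have := h2 s
        rwa [PJ_singleton h.le] at this⟩
    · classical
      obtain ⟨Φ, hΦ⟩ := h.amal H (fun J x => if hJ : SJ M J ∧ x ∈ PJ B P J then
        φ ⟨J, hJ.1⟩ ⟨x, hJ.2⟩ else 1) (fun J hJ x hx y hy => by
          rw [dif_pos ⟨hJ, mul_mem hx hy⟩, dif_pos ⟨hJ, hx⟩, dif_pos ⟨hJ, hy⟩, ← map_mul]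
          rfl) (fun J J' hsub hJ' x hx => by
          have hJ : SJ M J := ⟨(Finset.card_le_card hsub).trans hJ'.1,
            fun s hs t ht => hJ'.2 s (hsub hs) t (hsub ht)⟩
          rw [dif_pos ⟨hJ', hm hsub hx⟩, dif_pos ⟨hJ, hx⟩]
          exact (hφ ⟨J, hJ⟩ ⟨J', hJ'⟩ hsub x hx).symm)
      refine ⟨Φ, fun T a ha => ?_⟩
      rw [hΦ T.1 T.2 a ha, dif_pos ⟨T.2, ha⟩]
      rfl
  · intro c hc
    obtain ⟨a, ha⟩ := rtau_ch hc
    exact ⟨a, by rw [ha, smul_mk, mul_one]⟩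
  · intro g
    rw [smul_eq_iff, inv_one, one_mul, mul_one]
    change g ∈ PJ B P ∅ ↔ g ∈ B
    rw [PJ_empty]
  · intro s g g' hg hg'
    constructor
    · rintro ⟨p, hp, h1, h2⟩
      change (rcx M (PJ B P)).adj (g • mk (ch M) 1) p at h1
      change (rcx M (PJ B P)).adj (g' • mk (ch M) 1) p at h2
      rw [e0] at h1 h2
      have e1 := above_ch hm h1
      have e2 := above_ch hm h2
      have e3 : ty p = pt M s := Subtype.ext hp
      rw [e3] at e1 e2
      have h5 : g⁻¹ * g' ∈ PJ B P {s} := (mk_eq.1 (e1.symm.trans e2)).2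
      rwa [PJ_singleton h.le] at h5
    · intro h5
      refine ⟨mk (pt M s) g, rfl, ?_, ?_⟩
      · change (rcx M (PJ B P)).adj (mk (ch M) (g * 1)) (mk (pt M s) g)
        rw [mul_one]
        exact adj_mk (cmp_ch (pt_ne_ch s)) g
      · change (rcx M (PJ B P)).adj (mk (ch M) (g' * 1)) (mk (pt M s) g)
        have e : (mk (pt M s) g : RV M (PJ B P)) = mk (pt M s) g' := by
          refine mk_eq.2 ⟨rfl, ?_⟩
          change g⁻¹ * g' ∈ PJ B P {s}
          rw [PJ_singleton h.le]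
          exact h5
        rw [mul_one, e]
        exact adj_mk (cmp_ch (pt_ne_ch s)) g'
  · intro v
    obtain ⟨T, a, rfl⟩ := exists_mk v
    exact ⟨a, fun x => smul_eq_iff x T a⟩
  · intro v
    exact (ty v).2

end

end Pool.Agent.Helper63.EV
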