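import Pool.Agent.Helper9.TD.Typ

/-!
# Relative coset complexes

`G` is a group with subgroups `P J`, where `J` is a set of at most two types. The vertices of the
complex are the cosets `g (P J)`; the cosets of `P ∅` are the chambers.
-/

set_option autoImplicit false

namespace Pool.Agent.Helper63.EV

open Relation Pool.Agent.Helper3.FJ Pool.Agent.Helper9.TD

section

variable {I : Type} (N : CoxeterMatrix I) {G : Type} [Group G] (P : Finset I → Subgroup G)

/-- The types of the vertices: sets of at most two types `s`, `t` with `N s t ≠ 0`. -/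
def Ty : Type := {J : Finset I // J.card ≤ 2 ∧ ∀ s ∈ J, ∀ t ∈ J, N s t ≠ 0}

/-- Cosets. -/
def rel : Setoid (Ty N × G) where
  r a b := a.1 = b.1 ∧ a.2⁻¹ * b.2 ∈ P a.1.1
  iseqv :=
    { refl := fun a => ⟨rfl, by rw [inv_mul_cancel]; exact one_mem _⟩
      symm := by
        rintro ⟨T, a⟩ ⟨T', b⟩ ⟨h, h1⟩
        obtain rfl : T = T' := h
        refine ⟨rfl, ?_⟩
        have := inv_mem h1
        rwa [mul_inv_rev, inv_inv] at this
      trans := by
        rintro ⟨T, a⟩ ⟨T', b⟩ ⟨T'', c⟩ ⟨h, h1⟩ ⟨h', h2⟩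
        obtain rfl : T = T' := h
        obtain rfl : T = T'' := h'
        refine ⟨rfl, ?_⟩
        have := mul_mem h1 h2
        change a⁻¹ * b * (b⁻¹ * c) ∈ _ at this
        rwa [mul_assoc, mul_inv_cancel_left] at this }

/-- The vertices: cosets of the subgroups `P J`. -/
def RV : Type := Quotient (rel N P)

/-- The type of the chambers. -/
def ch : Ty N := ⟨∅, by simp, by simp⟩

/-- The type of the panels of type `s`. -/
def pt (s : I) : Ty N := ⟨{s}, by simp, fun a ha b hb => by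
  rw [Finset.mem_singleton] at ha hb
  rw [ha, hb, N.diagonal]
  exact one_ne_zero⟩

variable {N P}

/-- The coset `a (P J)`. -/
def mk (T : Ty N) (a : G) : RV N P := Quotient.mk (rel N P) (T, a)

theorem mk_eq {T T' : Ty N} {a b : G} :
    (mk T a : RV N P) = mk T' b ↔ T = T' ∧ a⁻¹ * b ∈ P T.1 := by
  let _ := rel N P
  exact ⟨fun h => Quotient.exact h, fun h => Quotient.sound h⟩

theorem exists_mk (v : RV N P) : ∃ T a, v = mk T a := by
  induction v using Quotient.ind with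
  | _ a => exact ⟨a.1, a.2, rfl⟩

/-- The type of a vertex. -/
def ty (v : RV N P) : Ty N :=
  Quotient.lift (s := rel N P) (fun a : Ty N × G => a.1) (fun _ _ h => h.1) v

@[simp] theorem ty_mk (T : Ty N) (a : G) : ty (mk T a : RV N P) = T := rfl

instance : MulAction G (RV N P) where
  smul g v := Quotient.lift (s := rel N P) (fun a : Ty N × G => mk a.1 (g * a.2))
    (fun a b h => by
      rw [mk_eq]
      refine ⟨h.1, ?_⟩
      have := h.2
      rwa [mul_inv_rev, mul_assoc, inv_mul_cancel_left]) v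
  one_smul v := by
    obtain ⟨T, a, rfl⟩ := exists_mk v
    change mk T (1 * a) = mk T a
    rw [one_mul]
  mul_smul g h v := by
    obtain ⟨T, a, rfl⟩ := exists_mk v
    change mk T (g * h * a) = mk T (g * (h * a))
    rw [mul_assoc]

@[simp] theorem smul_mk (g : G) (T : Ty N) (a : G) : g • (mk T a : RV N P) = mk T (g * a) := rfl

theorem ty_smul (g : G) (v : RV N P) : ty (g • v) = ty v := by
  obtain ⟨T, a, rfl⟩ := exists_mk v
  rfl

/-- The stabilizers are the conjugates of the subgroups `P J`. -/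
theorem smul_eq_iff (g : G) (T : Ty N) (a : G) :
    g • (mk T a : RV N P) = mk T a ↔ a⁻¹ * g * a ∈ P T.1 := by
  rw [smul_mk, mk_eq]
  have e : (g * a)⁻¹ * a = (a⁻¹ * g * a)⁻¹ := by group
  rw [e, inv_mem_iff]
  exact ⟨fun h => h.2, fun h => ⟨rfl, h⟩⟩

/-- Comparable types. -/
def Cmp (T T' : Ty N) : Prop := T.1 ⊂ T'.1 ∨ T'.1 ⊂ T.1

theorem Cmp.symm {T T' : Ty N} (h : Cmp T T') : Cmp T' T := Or.symm h

theorem Cmp.ne {T T' : Ty N} (h : Cmp T T') : T.1.card ≠ T'.1.card := by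
  rcases h with h | h
  · exact (Finset.card_lt_card h).ne
  · exact (Finset.card_lt_card h).ne'

variable (N P) in
/-- The relative coset complex. -/
def rcx : Cpx (RV N P) where
  adj u v := Cmp (ty u) (ty v) ∧ ∃ a, u = mk (ty u) a ∧ v = mk (ty v) a
  tri u v w := (Cmp (ty u) (ty v) ∧ Cmp (ty v) (ty w) ∧ Cmp (ty w) (ty u)) ∧
    ∃ a, u = mk (ty u) a ∧ v = mk (ty v) a ∧ w = mk (ty w) a
  adj_symm := fun _ _ ⟨h, a, h1, h2⟩ => ⟨h.symm, a, h2, h1⟩
  adj_irrefl := fun _ h => h.1.ne rfl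
  tri_rot := fun _ _ _ ⟨⟨h1, h2, h3⟩, a, e1, e2, e3⟩ => ⟨⟨h2, h3, h1⟩, a, e2, e3, e1⟩
  tri_flip := fun _ _ _ ⟨⟨h1, h2, h3⟩, a, e1, e2, e3⟩ =>
    ⟨⟨h1.symm, h3.symm, h2.symm⟩, a, e2, e1, e3⟩
  tri_adj := fun _ _ _ ⟨⟨h1, _, _⟩, a, e1, e2, _⟩ => ⟨h1, a, e1, e2⟩

theorem adj_mk {T T' : Ty N} (h : Cmp T T') (a : G) :
    (rcx N P).adj (mk T a) (mk T' a) := ⟨h, a, rfl, rfl⟩

theorem tri_mk {T T' T'' : Ty N} (h : Cmp T T') (h' : Cmp T' T'') (h'' : Cmp T'' T)
    (a : G) : (rcx N P).tri (mk T a) (mk T' a) (mk T'' a) :=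
  ⟨⟨h, h', h''⟩, a, rfl, rfl, rfl⟩

theorem smul_mk_ty {u : RV N P} {a : G} (g : G) (h : u = mk (ty u) a) :
    g • u = mk (ty (g • u)) (g * a) := by
  conv_lhs => rw [h]
  rw [ty_smul]
  rfl

theorem acts : (rcx N P).Acts G := by
  refine ⟨fun g u v h => ?_, fun g u v w h => ?_⟩
  · obtain ⟨h1, a, e1, e2⟩ := h
    refine ⟨?_, g * a, smul_mk_ty g e1, smul_mk_ty g e2⟩
    rw [ty_smul, ty_smul]
    exact h1
  · obtain ⟨⟨h1, h2, h3⟩, a, e1, e2, e3⟩ := h
    refine ⟨?_, g * a, smul_mk_ty g e1, smul_mk_ty g e2, smul_mk_ty g e3⟩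
    rw [ty_smul, ty_smul, ty_smul]
    exact ⟨h1, h2, h3⟩

variable (N P) in
/-- The types. -/
def rtau (v : RV N P) : Finset I := (ty v).1

theorem rtau_smul (g : G) (v : RV N P) : rtau N P (g • v) = rtau N P v := by
  unfold rtau
  rw [ty_smul]

theorem rtau_ch {v : RV N P} (h : rtau N P v = ∅) : ∃ a, v = mk (ch N) a := by
  obtain ⟨T, a, e⟩ := exists_mk v
  have h1 : ty v = ch N := Subtype.ext h
  rw [e, ty_mk] at h1
  exact ⟨a, by rw [e, h1]⟩

variable (hP : Monotone P)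

include hP

/-- Vertices of larger type determined by one element. -/
theorem mk_eq_of_le {T T' : Ty N} (h : T.1 ⊆ T'.1) {a b : G}
    (hab : (mk T a : RV N P) = mk T b) : (mk T' a : RV N P) = mk T' b :=
  mk_eq.2 ⟨rfl, hP h (mk_eq.1 hab).2⟩

/-- Vertices above a given one. -/
theorem above {u v : RV N P} {a : G} (hu : u = mk (ty u) a) (h : (rcx N P).adj u v)
    (hs : rtau N P u ⊂ rtau N P v) : v = mk (ty v) a := by
  obtain ⟨-, b, e1, e2⟩ := h
  have h1 : (mk (ty u) a : RV N P) = mk (ty u) b := hu.symm.trans e1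
  rw [mk_eq_of_le hP hs.subset h1]
  exact e2

theorem above_ch {a : G} {p : RV N P} (h : (rcx N P).adj (mk (ch N) a) p) :
    p = mk (ty p) a := by
  refine above hP (u := mk (ch N) a) rfl h ?_
  rcases h.1 with h1 | h1
  · exact h1
  · exact absurd h1 (Finset.not_ssubset_empty _)

end

/-! ### Alternating products -/

section

variable {G : Type} [Group G]

/-- Alternating products of `n` elements of `Q - B` and `R - B`, times an element of `B`. -/
inductive AltP (B : Subgroup G) : Subgroup G → Subgroup G → ℕ → G → Prop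
  | nil (Q R : Subgroup G) (b : G) : b ∈ B → AltP B Q R 0 b
  | cons {Q R : Subgroup G} {n : ℕ} {x y : G} : x ∈ Q → x ∉ B → AltP B R Q n y →
      AltP B Q R (n + 1) (x * y)

/-- The relative girth condition: alternating products of `n < 2 m` elements of `Q - B` and
`R - B`, `n > 0`, are not in `B`. -/
def GirP (B Q R : Subgroup G) (m : ℕ) : Prop :=
  ∀ n g, 0 < n → n < 2 * m → AltP B Q R n g → g ∉ B

variable {I : Type} {N : CoxeterMatrix I} {P : Finset I → Subgroup G} (hP : Monotone P)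

include hP

theorem al_altP {s t : I} {n : ℕ} {c d : {v : RV N P // rtau N P v = ∅}}
    (h : Al (Pn (rcx N P) (rtau N P)) s t n c d) {a b : G}
    (hc : c.1 = mk (ch N) a) (hd : d.1 = mk (ch N) b) : AltP (P ∅) (P {s}) (P {t}) n (a⁻¹ * b) := by
  induction h generalizing a with
  | nil s t c =>
    rw [hc, mk_eq] at hd
    exact AltP.nil _ _ _ hd.2
  | @cons s t n c d e h1 h2 h3 ih =>
    obtain ⟨a', ha'⟩ := rtau_ch d.2
    have h4 := ih ha' hd
    obtain ⟨p, hp, g1, g2⟩ := h1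
    rw [hc] at g1
    rw [ha'] at g2
    have e1 := above_ch hP g1
    have e2 := above_ch hP g2
    have e3 : ty p = pt N s := Subtype.ext hp
    rw [e3] at e1 e2
    have h5 : a⁻¹ * a' ∈ P {s} := (mk_eq.1 (e1.symm.trans e2)).2
    have h6 : a⁻¹ * a' ∉ P ∅ := by
      intro h
      apply h2
      apply Subtype.ext
      rw [hc, ha']
      exact mk_eq.2 ⟨rfl, h⟩
    have h7 := AltP.cons h5 h6 h4
    have h8 : a⁻¹ * a' * (a'⁻¹ * b) = a⁻¹ * b := by group
    rwa [h8] at h7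

/-- **The relative coset complex is a typed complex.** -/
theorem rtk (hgir : ∀ s t, s ≠ t → N s t ≠ 0 → GirP (P ∅) (P {s}) (P {t}) (N s t)) :
    TK N (rcx N P) (rtau N P) where
  two v := (ty v).2.1
  sph v s hs t ht := (ty v).2.2 s hs t ht
  sub u v h := h.1
  ch v hv := by
    obtain ⟨T, a, rfl⟩ := exists_mk v
    refine ⟨mk (ch N) a, rfl, Or.inl ?_, a, rfl, rfl⟩
    rw [ty_mk, ty_mk]
    exact Finset.ssubset_iff_subset_ne.2 ⟨Finset.empty_subset _, fun h => hv h.symm⟩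
  up c J hc hJ hJ2 hJ3 := by
    obtain ⟨a, ha⟩ := rtau_ch hc
    refine ⟨mk ⟨J, hJ2, hJ3⟩ a, ?_, rfl⟩
    rw [ha]
    refine ⟨Or.inl ?_, a, rfl, rfl⟩
    change ∅ ⊂ J
    exact Finset.ssubset_iff_subset_ne.2 ⟨Finset.empty_subset _, fun h => hJ.ne_empty h.symm⟩
  un u v v' h h' hs he := by
    obtain ⟨-, a, e1, e2⟩ := h
    have e3 := above hP e1 h' (he ▸ hs)
    have e4 : ty v = ty v' := Subtype.ext he
    rw [e2, e3, e4]
  tri u v w h h' hs hs' := by
    obtain ⟨hc, a, e1, e2⟩ := h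
    exact ⟨⟨hc, h'.1, Or.inr (hs.trans hs')⟩, a, e1, e2, above hP e2 h' hs'⟩
  flag c p r hc h h' hs := by
    obtain ⟨a, ha⟩ := rtau_ch hc
    have e0 : c = mk (ty c) a := by
      rw [ha]
      rfl
    rw [ha] at h h'
    refine ⟨⟨?_, Or.inl hs, ?_⟩, a, e0, above_ch hP h, above_ch hP h'⟩
    · rw [ha]
      exact h.1
    · rw [ha]
      exact h'.1.symm
  gir := by
    intro s t n c hst hn h
    by_contra hlt
    push Not at hlt
    obtain ⟨a, ha⟩ := rtau_ch c.2
    have h1 := al_altP hP h ha ha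
    rw [inv_mul_cancel] at h1
    exact hgir s t hst (by omega) n 1 hn hlt h1 (one_mem _)

end

end Pool.Agent.Helper63.EV
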