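import Pool.Agent.Helper63.EV.Rcx

/-!
# The relative coset complex is simply connected
-/

set_option autoImplicit false

namespace Pool.Agent.Helper63.EV

open Relation Pool.Agent.Helper3.FJ Pool.Agent.Helper9.TD

section

variable {I : Type} {N : CoxeterMatrix I} {G : Type} [Group G] {P : Finset I → Subgroup G}

theorem cmp_ch {T : Ty N} (h : T ≠ ch N) : Cmp (ch N) T :=
  Or.inl (Finset.ssubset_iff_subset_ne.2 ⟨Finset.empty_subset _, fun h' => h (Subtype.ext h'.symm)⟩)

theorem pt_ne_ch (s : I) : pt N s ≠ ch N := fun h =>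
  Finset.singleton_ne_empty s (congrArg Subtype.val h)

/-! ### Connectedness -/

theorem reach_symm {u v : RV N P} (h : ReflTransGen (rcx N P).adj u v) :
    ReflTransGen (rcx N P).adj v u := by
  induction h with
  | refl => exact ReflTransGen.refl
  | tail _ h ih => exact (ReflTransGen.single ((rcx N P).adj_symm _ _ h)).trans ih

theorem reach (hgen : ∀ K : Subgroup G, P ∅ ≤ K → (∀ s, P {s} ≤ K) → K = ⊤) (x a : G) :
    ReflTransGen (rcx N P).adj (mk (ch N) x) (mk (ch N) (x * a)) := by
  let K : Subgroup G :=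
    { carrier := {a | ∀ x, ReflTransGen (rcx N P).adj (mk (ch N) x) (mk (ch N) (x * a))}
      one_mem' := fun x => by rw [mul_one]
      mul_mem' := fun {a b} ha hb x => by
        have := (ha x).trans (hb (x * a))
        rwa [mul_assoc] at this
      inv_mem' := fun {a} ha x => by
        have := ha (x * a⁻¹)
        rw [inv_mul_cancel_right] at this
        exact reach_symm this }
  have hK : K = ⊤ := hgen K (fun a ha x => by
    have h2 : (mk (ch N) x : RV N P) = mk (ch N) (x * a) := by
      refine mk_eq.2 ⟨rfl, ?_⟩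
      rw [inv_mul_cancel_left]
      exact ha
    rw [← h2]) fun s a ha x => by
    have h1 : (rcx N P).adj (mk (ch N) x) (mk (pt N s) x) := adj_mk (cmp_ch (pt_ne_ch _)) x
    have h2 : (mk (pt N s) x : RV N P) = mk (pt N s) (x * a) := by
      refine mk_eq.2 ⟨rfl, ?_⟩
      rw [inv_mul_cancel_left]
      exact ha
    have h3 : (rcx N P).adj (mk (pt N s) x) (mk (ch N) (x * a)) := by
      rw [h2]
      exact adj_mk (cmp_ch (pt_ne_ch _)).symm _
    exact (ReflTransGen.single h1).tail h3
  have h : a ∈ K := by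
    rw [hK]
    exact Subgroup.mem_top a
  exact h x

theorem conn (hgen : ∀ K : Subgroup G, P ∅ ≤ K → (∀ s, P {s} ≤ K) → K = ⊤) (u v : RV N P) :
    ReflTransGen (rcx N P).adj u v := by
  have key : ∀ w : RV N P, ReflTransGen (rcx N P).adj (mk (ch N) 1) w := by
    intro w
    obtain ⟨T, a, rfl⟩ := exists_mk w
    have h1 := reach (P := P) (N := N) hgen 1 a
    rw [one_mul] at h1
    by_cases hT : T = ch N
    · rw [hT]
      exact h1
    · exact h1.tail (adj_mk (cmp_ch hT) a)
  exact (reach_symm (key u)).trans (key v)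

/-! ### Cocycles -/

variable {H : Type} [Group H] {c : RV N P → RV N P → H}

variable (G H) in
/-- Translations of functions. -/
def tr : G →* MulAut (G → H) where
  toFun g :=
    { toFun := fun f x => f (x * g)
      invFun := fun f x => f (x * g⁻¹)
      left_inv := fun f => by ext x; simp
      right_inv := fun f => by ext x; simp
      map_mul' := fun f f' => rfl }
  map_one' := by ext f x; simp
  map_mul' g h := by ext f x; simp [mul_assoc]

open Classical in
variable (c) in
/-- The cocycle along the edge from the chamber of `x` to the coset of `x` of type `T`. -/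
noncomputable def dd (T : Ty N) (x : G) : H := if T = ch N then 1 else c (mk (ch N) x) (mk T x)

variable (c) in
/-- The homomorphisms on the subgroups. -/
noncomputable def phi (T : Ty N) : P T.1 →* (G → H) ⋊[tr G H] G :=
  ((MulAut.conj (SemidirectProduct.inl (dd c T) : (G → H) ⋊[tr G H] G)).toMonoidHom.comp
    SemidirectProduct.inr).comp (P T.1).subtype

theorem phi_left (T : Ty N) (a : P T.1) (x : G) :
    (phi c T a).left x = dd c T x * (dd c T (x * a.1))⁻¹ := by
  change (SemidirectProduct.inl (dd c T) * SemidirectProduct.inr a.1 *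
    (SemidirectProduct.inl (dd c T))⁻¹ : (G → H) ⋊[tr G H] G).left x = _
  rw [← map_inv]
  simp only [SemidirectProduct.mul_left, SemidirectProduct.mul_right, SemidirectProduct.left_inl,
    SemidirectProduct.right_inl, SemidirectProduct.left_inr, SemidirectProduct.right_inr,
    map_one, mul_one, one_mul]
  rfl

theorem phi_right (T : Ty N) (a : P T.1) : (phi c T a).right = a.1 := by
  change (SemidirectProduct.inl (dd c T) * SemidirectProduct.inr a.1 *
    (SemidirectProduct.inl (dd c T))⁻¹ : (G → H) ⋊[tr G H] G).right = _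
  simp

/-- The homomorphisms are compatible. -/
theorem phi_compat (hP : Monotone P) (hc : (rcx N P).Cocycle c) {T T' : Ty N} (h : T.1 ⊆ T'.1)
    {a : G} (ha : a ∈ P T.1) : phi c T ⟨a, ha⟩ = phi c T' ⟨a, hP h ha⟩ := by
  refine SemidirectProduct.ext (funext fun x => ?_) ?_
  swap
  · rw [phi_right, phi_right]
  rw [phi_left, phi_left]
  change dd c T x * (dd c T (x * a))⁻¹ = dd c T' x * (dd c T' (x * a))⁻¹
  by_cases hT' : T' = ch N
  · have hT : T = ch N := by
      apply Subtype.ext
      rw [hT'] at h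
      exact Finset.subset_empty.1 h
    rw [hT, hT']
  have eT' : (mk T' (x * a) : RV N P) = mk T' x := by
    refine mk_eq.2 ⟨rfl, ?_⟩
    rw [mul_inv_rev, mul_assoc, inv_mul_cancel, mul_one]
    exact inv_mem (hP h ha)
  have eT : (mk T (x * a) : RV N P) = mk T x := by
    refine mk_eq.2 ⟨rfl, ?_⟩
    rw [mul_inv_rev, mul_assoc, inv_mul_cancel, mul_one]
    exact inv_mem ha
  by_cases hT : T = ch N
  · rw [dd, dd, if_pos hT, if_pos hT, dd, dd, if_neg hT', if_neg hT']
    rw [hT] at eT
    rw [eT, eT', mul_inv_cancel, mul_inv_cancel]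
  rcases eq_or_ne T T' with hTT | hTT
  · rw [hTT]
  have h1 : Cmp T T' := Or.inl (Finset.ssubset_iff_subset_ne.2
    ⟨h, fun h' => hTT (Subtype.ext h')⟩)
  have key : ∀ y, (mk T y : RV N P) = mk T x → (mk T' y : RV N P) = mk T' x →
      dd c T' y = dd c T y * c (mk T x) (mk T' x) := by
    intro y e1 e2
    have h3 := hc.2 _ _ _ (tri_mk (cmp_ch hT) h1 (cmp_ch hT').symm y)
    have h4 := hc.1 _ _ (adj_mk (cmp_ch hT') y)
    rw [← eq_inv_iff_mul_eq_one] at h3
    rw [← eq_inv_iff_mul_eq_one] at h4
    rw [dd, dd, if_neg hT, if_neg hT', h4, ← h3, e1, e2]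
  rw [key x rfl rfl, key (x * a) eT eT']
  group

/-- **The relative coset complex is simply connected** if the group has the universal property
of the colimit of the subgroups `P J`. -/
theorem rcx_simplyConn (hP : Monotone P)
    (hgen : ∀ K : Subgroup G, P ∅ ≤ K → (∀ s, P {s} ≤ K) → K = ⊤)
    (huniv : ∀ (H : Type) [Group H] (φ : ∀ T : Ty N, P T.1 →* H),
      (∀ (T T' : Ty N) (h : T.1 ⊆ T'.1) (a : G) (ha : a ∈ P T.1),
        φ T ⟨a, ha⟩ = φ T' ⟨a, hP h ha⟩) →
      ∃ Φ : G →* H, ∀ (T : Ty N) (a : G) (ha : a ∈ P T.1), Φ a = φ T ⟨a, ha⟩) :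
    (rcx N P).SimplyConn := by
  classical
  refine ⟨⟨mk (ch N) 1⟩, conn hgen, fun H _ c hc => ?_⟩
  obtain ⟨E, hE⟩ := huniv _ (phi c) fun T T' h a ha => phi_compat hP hc h ha
  have hr : ∀ g, (E g).right = g := by
    intro g
    have h1 : (⊤ : Subgroup G) = MonoidHom.eqLocus
        ((SemidirectProduct.rightHom : (G → H) ⋊[tr G H] G →* G).comp E) (MonoidHom.id G) := by
      refine (hgen _ (fun a ha => ?_) fun s a ha => ?_).symm
      · change (E a).right = a
        rw [hE (ch N) a ha, phi_right]
      · change (E a).right = a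
        rw [hE (pt N s) a ha, phi_right]
    have h2 : g ∈ (⊤ : Subgroup G) := Subgroup.mem_top g
    rw [h1] at h2
    exact h2
  let f : G → H := fun x => (E x).left 1
  have hf : ∀ (T : Ty N) (a : G), a ∈ P T.1 → ∀ x, f (x * a) * dd c T (x * a) =
      f x * dd c T x := by
    intro T a ha x
    have h1 : f (x * a) = f x * (dd c T x * (dd c T (x * a))⁻¹) := by
      change (E (x * a)).left 1 = (E x).left 1 * _
      rw [map_mul, SemidirectProduct.mul_left, hr, hE T a ha]
      change (E x).left 1 * (phi c T ⟨a, ha⟩).left (1 * x) = _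
      rw [one_mul, phi_left]
    rw [h1]
    group
  choose! T a hTa using fun v : RV N P => exists_mk v
  let g : RV N P → H := fun v => f (a v) * dd c (T v) (a v)
  have hg : ∀ (U : Ty N) (b : G), g (mk U b) = f b * dd c U b := by
    intro U b
    obtain ⟨h1, h2⟩ := mk_eq.1 (hTa (mk U b))
    change f (a (mk U b)) * dd c (T (mk U b)) (a (mk U b)) = _
    rw [← h1]
    have := hf U _ h2 b
    rwa [mul_inv_cancel_left] at this
  refine ⟨g, fun u v huv => ?_⟩
  obtain ⟨h1, b, e1, e2⟩ := huv
  rw [e1, e2, hg, hg]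
  by_cases hu : ty u = ch N
  · have hv : ty v ≠ ch N := by
      intro hv
      rw [hu, hv] at h1
      exact h1.ne rfl
    rw [dd, dd, if_pos hu, if_neg hv, hu]
    group
  · by_cases hv : ty v = ch N
    · rw [dd, dd, if_pos hv, if_neg hu, hv]
      have h4 := hc.1 _ _ (adj_mk (cmp_ch hu).symm b)
      rw [mul_eq_one_iff_eq_inv] at h4
      rw [h4]
      group
    · rw [dd, dd, if_neg hu, if_neg hv]
      have h3 := hc.2 _ _ _ (tri_mk (cmp_ch hu) h1 (cmp_ch hv).symm b)
      have h4 := hc.1 _ _ (adj_mk (cmp_ch hv) b)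
      rw [← eq_inv_iff_mul_eq_one] at h3
      rw [← eq_inv_iff_mul_eq_one] at h4
      rw [h4, ← h3]
      group

end

end Pool.Agent.Helper63.EV
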